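import Pool.Agent.Helper49.TP.StG

/-! PROJECT TP, module FHI: third inequality, one symbol with large `m`. -/

set_option autoImplicit false

namespace Pool.Agent.Helper34.TP

open Finset Pool.Agent.Helper49.TP Pool.Agent.Helper93.IA

private theorem fhi_pt (F ν m P u v a b c χ : ℝ) (hF : 0 ≤ F) (hν : 0 < ν) (hν1 : ν ≤ 1)
    (hm : 0 < m) (hP : 0 ≤ P) (hPF : P ≤ F) (hu : 0 ≤ u) (huF : u ≤ F) (hv : 0 ≤ v) (hvF : v ≤ F)
    (ha : 0 ≤ a) (hb : 0 ≤ b) (hc : 0 ≤ c) (hχ : χ = 1 ∨ χ = 0 ∧ m ≤ a + b + c) :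
    (1 - ν) * m * (P * (u + v - F) - F ^ 2 * χ - F * (P * a) / (ν * m)) ≤
      P * (b * u + c * v) := by
  have hL : 0 ≤ P * (b * u + c * v) := by positivity
  have hk : 0 ≤ (1 - ν) * m := mul_nonneg (by linarith) hm.le
  have hνm : 0 < ν * m := mul_pos hν hm
  have hq : 0 ≤ F * (P * a) / (ν * m) := by positivity
  have hPu : P * (u + v - F) ≤ P * F := mul_le_mul_of_nonneg_left (by linarith) hP
  rcases hχ with h | ⟨h, hm'⟩
  · have h1 : P * F ≤ F ^ 2 := by nlinarith
    have h2 : P * (u + v - F) - F ^ 2 * χ - F * (P * a) / (ν * m) ≤ 0 := by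
      rw [h]
      linarith
    have := mul_nonpos_of_nonneg_of_nonpos hk h2
    linarith
  · rw [h, mul_zero, sub_zero]
    rcases le_or_gt a (ν * m) with h3 | h3
    · have hbc : (1 - ν) * m ≤ b + c := by linarith
      have hmin : u + v - F ≤ u ∧ u + v - F ≤ v := ⟨by linarith, by linarith⟩
      -- lower bound by `(b + c) * (u + v - F)^+`
      have h4 : (1 - ν) * m * (u + v - F) ≤ b * u + c * v := by
        rcases le_or_gt (u + v - F) 0 with h5 | h5
        · have h6 := mul_nonpos_of_nonneg_of_nonpos hk h5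
          have h7 : 0 ≤ b * u + c * v := by positivity
          linarith
        · calc (1 - ν) * m * (u + v - F) ≤ (b + c) * (u + v - F) :=
                mul_le_mul_of_nonneg_right hbc h5.le
            _ = b * (u + v - F) + c * (u + v - F) := by ring
            _ ≤ b * u + c * v := add_le_add (mul_le_mul_of_nonneg_left hmin.1 hb)
                (mul_le_mul_of_nonneg_left hmin.2 hc)
      have h8 : (1 - ν) * m * (P * (u + v - F)) ≤ P * (b * u + c * v) := by
        calc (1 - ν) * m * (P * (u + v - F)) = P * ((1 - ν) * m * (u + v - F)) := by ring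
          _ ≤ P * (b * u + c * v) := mul_le_mul_of_nonneg_left h4 hP
      have h9 : (1 - ν) * m * (P * (u + v - F) - F * (P * a) / (ν * m)) ≤
          (1 - ν) * m * (P * (u + v - F)) := mul_le_mul_of_nonneg_left (by linarith) hk
      linarith
    · have h4 : P * F ≤ F * (P * a) / (ν * m) := by
        rw [le_div_iff₀ hνm]
        have : F * P * (ν * m) ≤ F * P * a := mul_le_mul_of_nonneg_left h3.le (by positivity)
        linarith
      have h2 : P * (u + v - F) - F * (P * a) / (ν * m) ≤ 0 := by linarith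
      have := mul_nonpos_of_nonneg_of_nonpos hk h2
      linarith

/-- **FHI.** -/
theorem hFHI : StFHI := by
  classical
  intro n F Λ ν E m FA a FB FC b c' bad hΛ hF hν hν1 hm hFA hFB hFC hLs hsB hsC ha hb hc hbad hw hE
  have hk : 0 ≤ (1 - ν) * m := mul_nonneg (by linarith) hm.le
  have hνm : 0 < ν * m := mul_pos hν hm
  let χ : Fin n → Fin n → ℝ := fun r c => if (r, c) ∈ bad then 1 else 0
  have hpt : ∀ r c, (1 - ν) * m * (FA r c * (FB c + FC r - F) - F ^ 2 * χ r c -
      F * (FA r c * a r c) / (ν * m)) ≤ FA r c * (b c * FB c + c' r * FC r) := by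
    intro r c
    refine fhi_pt F ν m (FA r c) (FB c) (FC r) (a r c) (b c) (c' r) (χ r c) hF hν hν1 hm
      (hFA r c).1 (hFA r c).2 (hFB c).1 (hFB c).2 (hFC r).1 (hFC r).2 (ha r c) (hb c) (hc r) ?_
    by_cases h : (r, c) ∈ bad
    · left
      simp [χ, h]
    · right
      exact ⟨by simp [χ, h], hw r c h⟩
  have hsum : ∑ r, ∑ c, (1 - ν) * m * (FA r c * (FB c + FC r - F) - F ^ 2 * χ r c -
      F * (FA r c * a r c) / (ν * m)) ≤ ∑ r, ∑ c, FA r c * (b c * FB c + c' r * FC r) :=
    Finset.sum_le_sum fun r _ => Finset.sum_le_sum fun c _ => hpt r c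
  -- right side
  have hR : ∑ r, ∑ c, FA r c * (b c * FB c + c' r * FC r) =
      n * (∑ c, b c * FB c + ∑ r, c' r * FC r) := by
    have e1 : ∑ r, ∑ c, FA r c * (b c * FB c) = n * ∑ c, b c * FB c := by
      rw [Finset.sum_comm, Finset.mul_sum]
      refine Finset.sum_congr rfl fun c _ => ?_
      rw [← Finset.sum_mul, hLs.2 c]
    have e2 : ∑ r, ∑ c, FA r c * (c' r * FC r) = n * ∑ r, c' r * FC r := by
      rw [Finset.mul_sum]
      refine Finset.sum_congr rfl fun r _ => ?_
      rw [← Finset.sum_mul, hLs.1 r]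
    simp only [mul_add, Finset.sum_add_distrib]
    rw [e1, e2]
  -- left side
  have hM : ∑ r, ∑ c, FA r c * (FB c + FC r - F) = (n : ℝ) ^ 2 * (2 - F) := by
    have e1 : ∑ r, ∑ c, FA r c * FB c = (n : ℝ) ^ 2 := by
      rw [Finset.sum_comm]
      have : ∀ c, ∑ r, FA r c * FB c = n * FB c := fun c => by rw [← Finset.sum_mul, hLs.2 c]
      simp only [this]
      rw [← Finset.mul_sum, hsB, sq]
    have e2 : ∑ r, ∑ c, FA r c * FC r = (n : ℝ) ^ 2 := by
      have : ∀ r, ∑ c, FA r c * FC r = n * FC r := fun r => by rw [← Finset.sum_mul, hLs.1 r]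
      simp only [this]
      rw [← Finset.mul_sum, hsC, sq]
    have e3 : ∑ r, ∑ c, FA r c * F = (n : ℝ) ^ 2 * F := by
      have : ∀ r, ∑ c, FA r c * F = n * F := fun r => by rw [← Finset.sum_mul, hLs.1 r]
      simp only [this]
      rw [Finset.sum_const, Finset.card_univ, Fintype.card_fin, nsmul_eq_mul]
      ring
    simp only [mul_sub, mul_add, Finset.sum_sub_distrib, Finset.sum_add_distrib]
    rw [e1, e2, e3]
    ring
  have hχ : ∑ r, ∑ c, χ r c = bad.card := by
    have e1 : ∑ r, ∑ c, χ r c = ∑ p : Fin n × Fin n, if p ∈ bad then (1 : ℝ) else 0 := by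
      rw [Fintype.sum_prod_type]
    rw [e1]
    simp
  have hEE : ∑ r, ∑ c, F * (FA r c * a r c) / (ν * m) ≤ F * E / (ν * m) := by
    have e1 : ∑ r, ∑ c, F * (FA r c * a r c) / (ν * m) =
        F * (∑ r, ∑ c, a r c * FA r c) / (ν * m) := by
      simp only [Finset.mul_sum, Finset.sum_div]
      refine Finset.sum_congr rfl fun r _ => Finset.sum_congr rfl fun c _ => ?_
      ring
    rw [e1]
    gcongr
  have hL : ∑ r, ∑ c, (1 - ν) * m * (FA r c * (FB c + FC r - F) - F ^ 2 * χ r c -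
      F * (FA r c * a r c) / (ν * m)) =
      (1 - ν) * m * ((n : ℝ) ^ 2 * (2 - F) - F ^ 2 * bad.card -
        ∑ r, ∑ c, F * (FA r c * a r c) / (ν * m)) := by
    simp only [← Finset.mul_sum, Finset.sum_sub_distrib]
    rw [hM, hχ]
  rw [hR, hL] at hsum
  refine le_trans (mul_le_mul_of_nonneg_left ?_ hk) hsum
  have hb2 : F ^ 2 * (bad.card : ℝ) ≤ F ^ 2 * n ^ 2 / Λ := by
    calc F ^ 2 * (bad.card : ℝ) ≤ F ^ 2 * ((n : ℝ) ^ 2 / Λ) :=
          mul_le_mul_of_nonneg_left hbad (sq_nonneg F)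
      _ = F ^ 2 * n ^ 2 / Λ := by ring
  linarith

end Pool.Agent.Helper34.TP
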